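import Pool.Agent.MP_9d3c7b_al.Br.CatPf

/-! The abelian category of finitely generated graded modules and its modules of finite length. -/

namespace Pool.Agent.MP_9d3c7b_al

open CategoryTheory Limits

universe u

variable (k : Type u) [Field k] {S : Type u} [CommRing S] [Algebra k S] [IsNoetherianRing S]
  {L : Type} [AddCommGroup L] (xx : Fin 3 → S) (ww : Fin 3 → L)

instance fgAb : Abelian (FG k xx ww) where
  toPreadditive := fgPre
  toIsNormalMonoCategory := id FG.normalMono
  toIsNormalEpiCategory := id FG.normalEpi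
  has_finite_products := id FG.hasProd
  has_kernels := id FG.hasKer
  has_cokernels := id FG.hasCok

/-- The modules of finite length. -/
def finLen : ObjectProperty (FG k xx ww) := fun M => IsFiniteLength S M.car

instance finLen.serre : (finLen k xx ww).IsSerreClass where
  exists_zero := by
    obtain ⟨Z, hZ⟩ := HasZeroObject.zero (C := FG k xx ww)
    have : Subsingleton Z.car :=
      subsingleton_of_forall_eq 0 fun m => FG.congr (hZ.eq_of_src (𝟙 Z) 0) m
    exact ⟨Z, hZ, IsFiniteLength.of_subsingleton⟩
  prop_of_mono f _ h := IsFiniteLength.of_injective h (FG.inj_of_mono f)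
  prop_of_epi f _ h := IsFiniteLength.of_surjective h (FG.surj_of_epi f)
  prop_X₂_of_shortExact {T} hT h₁ h₃ := by
    have := (isFiniteLength_iff_isNoetherian_isArtinian.1 h₁).2
    have := (isFiniteLength_iff_isNoetherian_isArtinian.1 h₃).2
    refine isFiniteLength_iff_isNoetherian_isArtinian.2 ⟨inferInstance,
      isArtinian_of_range_eq_ker T.f.1 T.g.1 (le_antisymm ?_ fun m hm => ?_)⟩
    · rintro _ ⟨m, rfl⟩
      exact FG.congr T.zero m
    · obtain ⟨x, rfl⟩ := FG.kerι_ex T.g m hm
      have := hT.mono_f
      obtain ⟨l, hl⟩ := hT.exact.lift' (FG.kerι T.g) (FG.ker_w _)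
      exact ⟨_, FG.congr hl x⟩

end Pool.Agent.MP_9d3c7b_al
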