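import Pool.Agent.MP_9d3c7b_al.Defs

/-! The category of finitely generated graded modules. -/

namespace Pool.Agent.MP_9d3c7b_al

open CategoryTheory

universe u

section
variable (S : Type u) [CommRing S] {L : Type} {M N P : Type u} [AddCommGroup M] [Module S M]
  [AddCommGroup N] [Module S N] [AddCommGroup P] [Module S P]

/-- The group of S-linear maps that preserve degrees. -/
def homGr (a : L → AddSubgroup M) (b : L → AddSubgroup N) : AddSubgroup (M →ₗ[S] N) where
  carrier := {φ | ∀ l m, m ∈ a l → φ m ∈ b l}
  add_mem' ha hb l m hm := add_mem (ha l m hm) (hb l m hm)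
  zero_mem' _ _ _ := zero_mem _
  neg_mem' ha l m hm := neg_mem (ha l m hm)

/-- The same, as a type. -/
def GHom (a : L → AddSubgroup M) (b : L → AddSubgroup N) : Type u := homGr S a b

instance ghomGroup (a : L → AddSubgroup M) (b : L → AddSubgroup N) :
    AddCommGroup (GHom S a b) := (homGr S a b).toAddCommGroup

variable {S}

/-- Composition. -/
def GHom.thenDo {a : L → AddSubgroup M} {b : L → AddSubgroup N} {c : L → AddSubgroup P}
    (f : GHom S a b) (g : GHom S b c) : GHom S a c :=
  ⟨g.1 ∘ₗ f.1, fun l m hm => g.2 l _ (f.2 l m hm)⟩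

/-- Multiplication by an element of S that preserves degrees. -/
def GHom.scale {a : L → AddSubgroup M} (r : S) (h : ∀ l m, m ∈ a l → r • m ∈ a l) : GHom S a a :=
  ⟨r • LinearMap.id, fun l m hm => h l m hm⟩

/-- The identity. -/
def GHom.ident (a : L → AddSubgroup M) : GHom S a a := ⟨LinearMap.id, fun _ _ hm => hm⟩

end

/-- Finitely generated L-graded S-modules. -/
structure FG (k : Type u) [Field k] {S : Type u} [CommRing S] [Algebra k S] {L : Type}
    [AddCommGroup L] (xx : Fin 3 → S) (ww : Fin 3 → L) extends GrMod k xx ww where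
  fin : Module.Finite S car

variable {k : Type u} [Field k] {S : Type u} [CommRing S] [Algebra k S] {L : Type} [AddCommGroup L]
  {xx : Fin 3 → S} {ww : Fin 3 → L}

/-- The twist M(d). -/
def FG.twistFG (M : FG k xx ww) (d : L) : FG k xx ww := ⟨M.toGrMod.twist d, M.fin⟩

instance fgCat : Category (FG k xx ww) where
  Hom M N := GHom S M.gr N.gr
  id M := GHom.ident M.gr
  comp f g := f.thenDo g
  id_comp _ := rfl
  comp_id _ := rfl
  assoc _ _ _ := rfl

instance fgPre : Preadditive (FG k xx ww) where
  homGroup M N := ghomGroup S M.gr N.gr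
  add_comp _ _ _ f f' g := id (Subtype.ext (LinearMap.comp_add f.1 f'.1 g.1))
  comp_add _ _ _ f g g' := id (Subtype.ext (LinearMap.add_comp f.1 g'.1 g.1))

/-- Multiplication by a scalar of the ground field. -/
def scal (a : k) (M : FG k xx ww) : M ⟶ M := GHom.scale (algebraMap k S a) (M.const_mem a)

end Pool.Agent.MP_9d3c7b_al
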