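import Pool.Agent.MP_9d3c7b_al.Br.Cat
import Pool.Agent.MP_9d3c7b_al.Graded

/-! Kernels, cokernels and products of finitely generated graded modules. -/

namespace Pool.Agent.MP_9d3c7b_al

open CategoryTheory Limits

universe u

variable {k : Type u} [Field k] {S : Type u} [CommRing S] [Algebra k S] {L : Type} [AddCommGroup L]
  {xx : Fin 3 → S} {ww : Fin 3 → L}

attribute [instance] FG.fin

theorem mem_gr_of_inj {K M : GrMod k xx ww} {i : K.car →ₗ[S] M.car} (hi : IsHom K M i)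
    (inj : Function.Injective i) {l : L} {x : K.car} (hx : i x ∈ M.gr l) : x ∈ K.gr l := by
  have : K.pr l x = x := inj (by rw [← hi.pr, M.pr_same hx])
  rw [← this]
  exact K.pr_mem l x

theorem lift_gr {N C : GrMod k xx ww} {p : N.car →ₗ[S] C.car} (hp : IsHom N C p)
    {l : L} {c : C.car} (hc : c ∈ C.gr l) (h : ∃ n, p n = c) : ∃ n ∈ N.gr l, p n = c := by
  obtain ⟨n, rfl⟩ := h
  exact ⟨N.pr l n, N.pr_mem l n, by rw [← hp.pr, C.pr_same hc]⟩

/-- The quotient by a graded submodule. -/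
noncomputable def GrMod.quot (M : GrMod k xx ww) (U : Submodule S M.car)
    (hU : ∀ l, ∀ m ∈ U, M.pr l m ∈ U) : GrMod k xx ww where
  car := M.car ⧸ U
  gr l := (M.gr l).map U.mkQ.toAddMonoidHom
  internal := by
    classical
    refine isInternal_of_proj _
      (fun l => QuotientAddGroup.map U.toAddSubgroup U.toAddSubgroup (M.pr l) (hU l)) ?_ ?_ ?_
    · rintro l _ ⟨m, hm, rfl⟩
      exact congrArg U.mkQ (M.pr_same hm)
    · rintro l l' _ ⟨m, hm, rfl⟩ hl
      exact (congrArg U.mkQ (M.pr_ne hm hl)).trans (map_zero _)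
    · intro m
      obtain ⟨m, rfl⟩ := U.mkQ_surjective m
      obtain ⟨T, hT⟩ := M.pr_sum m
      rw [← hT, map_sum]
      exact AddSubgroup.sum_mem _ fun l _ => AddSubgroup.mem_iSup_of_mem l ⟨_, M.pr_mem l m, rfl⟩
  const_mem := by
    rintro a l _ ⟨m, hm, rfl⟩
    exact ⟨_, M.const_mem a l m hm, rfl⟩
  var_mem := by
    rintro i l _ ⟨m, hm, rfl⟩
    exact ⟨_, M.var_mem i l m hm, rfl⟩

/-- Finite products. -/
noncomputable def GrMod.pi {I : Type} [Fintype I] (M : I → GrMod k xx ww) : GrMod k xx ww where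
  car := ∀ i, (M i).car
  gr l := AddSubgroup.pi Set.univ fun i => (M i).gr l
  internal := by
    classical
    refine isInternal_of_proj _
      (fun l => AddMonoidHom.pi fun i => ((M i).pr l).comp (Pi.evalAddMonoidHom _ i)) ?_ ?_ ?_
    · intro l m hm
      funext i
      exact (M i).pr_same (hm i trivial)
    · intro l l' m hm hl
      funext i
      exact (M i).pr_ne (hm i trivial) hl
    · intro m
      rw [← Finset.univ_sum_single m]
      refine AddSubgroup.sum_mem _ fun i _ => ?_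
      obtain ⟨T, hT⟩ := (M i).pr_sum (m i)
      rw [← hT, ← AddMonoidHom.single_apply, map_sum]
      refine AddSubgroup.sum_mem _ fun l _ => AddSubgroup.mem_iSup_of_mem l fun j _ => ?_
      by_cases hj : j = i
      · subst hj
        simpa using (M j).pr_mem l (m j)
      · simp [hj]
  const_mem a l m hm i _ := (M i).const_mem a l _ (hm i trivial)
  var_mem j l m hm i _ := (M i).var_mem j l _ (hm i trivial)

namespace FG

variable {M N P K C A : FG k xx ww}

theorem hom_ext {f g : M ⟶ N} (h : ∀ m, f.1 m = g.1 m) : f = g := Subtype.ext (LinearMap.ext h)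

theorem isHom (f : M ⟶ N) : IsHom M.toGrMod N.toGrMod f.1 := f.2

@[simp] theorem comp_apply (f : M ⟶ N) (g : N ⟶ P) (m : M.car) :
    (f ≫ g).1 m = g.1 (f.1 m) := rfl

@[simp] theorem id_apply (m : M.car) : (𝟙 M : M ⟶ M).1 m = m := rfl

@[simp] theorem zero_apply (m : M.car) : (0 : M ⟶ N).1 m = 0 := rfl

@[simp] theorem sub_apply (f g : M ⟶ N) (m : M.car) : (f - g).1 m = f.1 m - g.1 m := rfl

@[simp] theorem add_apply (f g : M ⟶ N) (m : M.car) : (f + g).1 m = f.1 m + g.1 m := rfl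

theorem congr {f g : M ⟶ N} (h : f = g) (m : M.car) : f.1 m = g.1 m := by rw [h]

theorem mono_of_inj {f : M ⟶ N} (h : Function.Injective f.1) : Mono f :=
  ⟨fun _ _ e => hom_ext fun m => h (congr e m)⟩

theorem epi_of_surj {f : M ⟶ N} (h : Function.Surjective f.1) : Epi f :=
  ⟨fun _ _ e => hom_ext fun n => by
    obtain ⟨m, rfl⟩ := h n
    exact congr e m⟩

theorem exists_lift (i : K ⟶ M) (inj : Function.Injective i.1) (g : A ⟶ M)
    (h : ∀ a, ∃ x, i.1 x = g.1 a) : ∃ l : A ⟶ K, l ≫ i = g :=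
  ⟨⟨LinearMap.codRestrictOfInjective g.1 i.1 inj h, fun l m hm => mem_gr_of_inj (isHom i) inj (by
    rw [LinearMap.codRestrictOfInjective_comp_apply]
    exact g.2 l m hm)⟩, hom_ext fun a => LinearMap.codRestrictOfInjective_comp_apply _ _ _ _ a⟩

theorem exists_desc (p : N ⟶ C) (surj : Function.Surjective p.1) (g : N ⟶ A)
    (h : ∀ n, p.1 n = 0 → g.1 n = 0) : ∃ l : C ⟶ A, p ≫ l = g := by
  let φ : C.car →ₗ[S] A.car :=
    (LinearMap.ker p.1).liftQ g.1 h ∘ₗ (p.1.quotKerEquivOfSurjective surj).symm.toLinearMap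
  have hφ : ∀ n, φ (p.1 n) = g.1 n := fun n => by simp [φ]
  refine ⟨⟨φ, fun l c hc => ?_⟩, hom_ext hφ⟩
  obtain ⟨n, hn, rfl⟩ := lift_gr (isHom p) hc (surj c)
  rw [hφ]
  exact g.2 l n hn

/-- An injective map with the right image is a kernel. -/
noncomputable def isKer (i : K ⟶ M) {f : M ⟶ N} (w : i ≫ f = 0) (inj : Function.Injective i.1)
    (ex : ∀ m, f.1 m = 0 → ∃ x, i.1 x = m) : IsLimit (KernelFork.ofι i w) :=
  have := mono_of_inj inj
  KernelFork.IsLimit.ofι' i w fun g hg =>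
    have h := exists_lift i inj g fun a => ex _ (congr hg a)
    ⟨h.choose, h.choose_spec⟩

/-- A surjective map with the right kernel is a cokernel. -/
noncomputable def isCoker {f : M ⟶ N} (p : N ⟶ C) (w : f ≫ p = 0)
    (surj : Function.Surjective p.1) (ex : ∀ n, p.1 n = 0 → ∃ x, f.1 x = n) :
    IsColimit (CokernelCofork.ofπ p w) :=
  have := epi_of_surj surj
  CokernelCofork.IsColimit.ofπ' p w fun g hg =>
    have h := exists_desc p surj g fun n hn => by
      obtain ⟨x, rfl⟩ := ex n hn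
      exact congr hg x
    ⟨h.choose, h.choose_spec⟩

/-- The cokernel. -/
noncomputable def cok (f : M ⟶ N) : FG k xx ww where
  toGrMod := N.toGrMod.quot (LinearMap.range f.1) (by
    rintro l _ ⟨m, rfl⟩
    exact ⟨_, ((isHom f).pr l m).symm⟩)
  fin := (inferInstance : Module.Finite S (N.car ⧸ LinearMap.range f.1))

/-- The projection to the cokernel. -/
noncomputable def cokπ (f : M ⟶ N) : N ⟶ cok f :=
  ⟨(LinearMap.range f.1).mkQ, fun _ m hm => ⟨m, hm, rfl⟩⟩

theorem cokπ_surj (f : M ⟶ N) : Function.Surjective (cokπ f).1 := Submodule.mkQ_surjective _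

theorem cokπ_zero (f : M ⟶ N) (n : N.car) : (cokπ f).1 n = 0 ↔ ∃ x, f.1 x = n :=
  Submodule.Quotient.mk_eq_zero _

theorem cok_w (f : M ⟶ N) : f ≫ cokπ f = 0 := hom_ext fun m => (cokπ_zero f _).2 ⟨m, rfl⟩

/-- The cokernel is a cokernel. -/
noncomputable def cokIs (f : M ⟶ N) : IsColimit (CokernelCofork.ofπ _ (cok_w f)) :=
  isCoker _ _ (cokπ_surj f) fun n => (cokπ_zero f n).1

theorem surj_of_epi (f : M ⟶ N) [Epi f] : Function.Surjective f.1 := fun n =>
  (cokπ_zero f n).1 (congr (zero_of_epi_comp f (cok_w f)) n)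

theorem hasCok : HasCokernels (FG k xx ww) := ⟨fun f => ⟨⟨⟨_, cokIs f⟩⟩⟩⟩

theorem hasProd : HasFiniteProducts (FG k xx ww) := by
  refine ⟨fun n => ⟨fun F => ?_⟩⟩
  let M : Fin n → FG k xx ww := fun i => F.obj ⟨i⟩
  let P : FG k xx ww := ⟨GrMod.pi fun i => (M i).toGrMod,
    inferInstanceAs (Module.Finite S (∀ i, (M i).car))⟩
  let π : ∀ i, P ⟶ M i := fun i => ⟨LinearMap.proj i, fun l m hm => hm i trivial⟩
  have : HasProduct M := ⟨⟨⟨Fan.mk P π, Fan.IsLimit.mk _
    (fun s => ⟨LinearMap.pi fun i => (s.proj i).1, fun l m hm i _ => (s.proj i).2 l m hm⟩)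
    (fun s j => rfl) fun s m hm => hom_ext fun x => funext fun i => congr (hm i) x⟩⟩⟩
  exact hasLimit_of_iso (F := Discrete.functor M) Discrete.natIsoFunctor.symm

variable [IsNoetherianRing S]

/-- The kernel of a homogeneous map. -/
noncomputable def kerd (M : FG k xx ww) (N : GrMod k xx ww) (φ : M.car →ₗ[S] N.car) (d : L)
    (hφ : ∀ l m, m ∈ M.gr l → φ m ∈ N.gr (l + d)) : FG k xx ww where
  toGrMod := M.toGrMod.ker N φ d hφ
  fin := inferInstanceAs (Module.Finite S (LinearMap.ker φ))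

/-- The inclusion of the kernel. -/
noncomputable def kerdι (M : FG k xx ww) (N : GrMod k xx ww) (φ : M.car →ₗ[S] N.car) (d : L)
    (hφ : ∀ l m, m ∈ M.gr l → φ m ∈ N.gr (l + d)) : kerd M N φ d hφ ⟶ M :=
  ⟨(LinearMap.ker φ).subtype, fun _ _ hm => hm⟩

/-- The kernel. -/
noncomputable def ker (f : M ⟶ N) : FG k xx ww :=
  kerd M N.toGrMod f.1 0 fun l m hm => by rw [add_zero]; exact f.2 l m hm

/-- The inclusion of the kernel. -/
noncomputable def kerι (f : M ⟶ N) : ker f ⟶ M := kerdι _ _ _ _ _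

theorem kerι_inj (f : M ⟶ N) : Function.Injective (kerι f).1 := Subtype.val_injective

theorem kerι_ex (f : M ⟶ N) (m : M.car) (h : f.1 m = 0) : ∃ x, (kerι f).1 x = m := ⟨⟨m, h⟩, rfl⟩

theorem ker_w (f : M ⟶ N) : kerι f ≫ f = 0 := hom_ext fun m => m.2

/-- The kernel is a kernel. -/
noncomputable def kerIs (f : M ⟶ N) : IsLimit (KernelFork.ofι _ (ker_w f)) :=
  isKer _ _ (kerι_inj f) (kerι_ex f)

theorem inj_of_mono (f : M ⟶ N) [Mono f] : Function.Injective f.1 := by
  rw [injective_iff_map_eq_zero]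
  intro m hm
  obtain ⟨x, rfl⟩ := kerι_ex f m hm
  exact congr (zero_of_comp_mono f (ker_w f)) x

theorem hasKer : HasKernels (FG k xx ww) := ⟨fun f => ⟨⟨⟨_, kerIs f⟩⟩⟩⟩

theorem normalMono : IsNormalMonoCategory (FG k xx ww) :=
  ⟨fun f _ => ⟨⟨_, _, cok_w f, isKer _ _ (inj_of_mono f) fun n => (cokπ_zero f n).1⟩⟩⟩

theorem normalEpi : IsNormalEpiCategory (FG k xx ww) :=
  ⟨fun f _ => ⟨⟨_, _, ker_w f, isCoker _ _ (surj_of_epi f) (kerι_ex f)⟩⟩⟩

end FG

end Pool.Agent.MP_9d3c7b_al
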