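import Pool.Agent.MP_9d3c7b_al.Br.Ab

/-!
Coherent sheaves as the Serre quotient, vector bundles, line bundles, distinguished exact
sequences and the stable category of vector bundles.
-/

namespace Pool.Agent.MP_9d3c7b_al

open CategoryTheory Limits

universe u

variable (k : Type u) [Field k] {S : Type u} [CommRing S] [Algebra k S] [IsNoetherianRing S]
  {L : Type} [AddCommGroup L] (xx : Fin 3 → S) (ww : Fin 3 → L)

/-- coh X: the quotient of the finitely generated graded modules by those of finite length. -/
def Coh : Type (u + 1) := (finLen k xx ww).isoModSerre.Localization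

noncomputable instance cohCat : Category (Coh k xx ww) :=
  (inferInstance : Category (finLen k xx ww).isoModSerre.Localization)

noncomputable instance cohAb : Abelian (Coh k xx ww) :=
  (ObjectProperty.SerreClassLocalization.abelian (finLen k xx ww).isoModSerre.Q (finLen k xx ww) :
    Abelian (finLen k xx ww).isoModSerre.Localization)

instance cohSums : HasFiniteBiproducts (Coh k xx ww) := Abelian.hasFiniteBiproducts

/-- The quotient functor: the sheaf of a graded module. -/
noncomputable def sh : FG k xx ww ⥤ Coh k xx ww := (finLen k xx ww).isoModSerre.Q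

/-- Vector bundles: the torsion-free sheaves, those receiving no nonzero map from the sheaf of
a torsion module. -/
structure Vect extends FG k xx ww where
  tf : ∀ T : FG k xx ww, Module.IsTorsion S T.car →
    ∀ f : (sh k xx ww).obj T ⟶ (sh k xx ww).obj toFG, f = 0

variable {k xx ww}

/-- The underlying sheaf of a vector bundle. -/
noncomputable abbrev Vect.ob (E : Vect k xx ww) : Coh k xx ww := (sh k xx ww).obj E.toFG

/-- The twist E(d) of a vector bundle. -/
noncomputable def Vect.tw (E : Vect k xx ww) (d : L) : Coh k xx ww :=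
  (sh k xx ww).obj (E.toFG.twistFG d)

/-- Line bundles: vector bundles of rank one. -/
def IsLine (E : Vect k xx ww) : Prop := Module.finrank S E.car = 1

/-- Finite direct sums of line bundles. -/
def LineSum (G : Coh k xx ww) : Prop :=
  ∃ (n : ℕ) (E : Fin n → Vect k xx ww), (∀ i, IsLine (E i)) ∧ Nonempty (G ≅ ⨁ fun i => (E i).ob)

/-- Distinguished sequences: short exact sequences on which Hom(E, -) stays exact for every
line bundle E (it is always left exact). -/
def Dist (A B C : Coh k xx ww) : Prop :=
  ∃ (α : A ⟶ B) (β : B ⟶ C) (w : α ≫ β = 0), (ShortComplex.mk α β w).ShortExact ∧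
    ∀ E : Vect k xx ww, IsLine E → ∀ γ : E.ob ⟶ C, ∃ δ : E.ob ⟶ B, δ ≫ β = γ

/-- Maps that vanish in the stable category. -/
def Null {A B : Coh k xx ww} (φ : A ⟶ B) : Prop :=
  ∃ (G : Coh k xx ww) (α : A ⟶ G) (β : G ⟶ B), LineSum G ∧ φ = α ≫ β

/-- Isomorphism in the stable category. -/
def StabIso (A B : Coh k xx ww) : Prop :=
  ∃ (α : A ⟶ B) (β : B ⟶ A), Null (α ≫ β - 𝟙 A) ∧ Null (β ≫ α - 𝟙 B)

/-- Y is a suspension X[1]. -/
def Shift (X Y : Vect k xx ww) : Prop := ∃ G : Coh k xx ww, LineSum G ∧ Dist X.ob G Y.ob

/-- Exceptional objects of the stable category. -/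
def Exc (E : Vect k xx ww) : Prop :=
  ¬ Null (𝟙 E.ob) ∧
  (∀ φ : E.ob ⟶ E.ob, ∃ a : k, Null (φ - (sh k xx ww).map (scal a E.toFG))) ∧
  ∀ Y : Vect k xx ww, Relation.TransGen Shift E Y ∨ Relation.TransGen Shift Y E →
    ∀ φ : E.ob ⟶ Y.ob, Null φ

/-- Object triples of the triangles of the stable category. -/
def Tri (A B C : Vect k xx ww) : Prop :=
  ∃ A' B' C' : Vect k xx ww, StabIso A.ob A'.ob ∧ StabIso B.ob B'.ob ∧ StabIso C.ob C'.ob ∧
    Dist A'.ob B'.ob C'.ob

variable (k xx ww) in
/-- The Grothendieck group of the stable category. -/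
abbrev K0 : Type (u + 1) :=
  FreeAbelianGroup (Vect k xx ww) ⧸ AddSubgroup.closure
    {v | ∃ A B C : Vect k xx ww, Tri A B C ∧
      v = FreeAbelianGroup.of B - FreeAbelianGroup.of A - FreeAbelianGroup.of C}

/-- The class of an object in the Grothendieck group. -/
def cl (E : Vect k xx ww) : K0 k xx ww := QuotientAddGroup.mk (FreeAbelianGroup.of E)

end Pool.Agent.MP_9d3c7b_al
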